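import Mathlib

/-! Matrix algebra for Minkowski uniqueness (helper file for MP_fb1ba4_gt). -/

open Matrix

namespace Pool.Agent.Helper14.Cov

variable {ι : Type*} [Fintype ι] [DecidableEq ι]

/-- Eigenvalue form of AM-GM. -/
theorem trace_of_det_one {P : Matrix ι ι ℝ} (hP : P.PosDef) (hdet : P.det = 1) :
    (Fintype.card ι : ℝ) ≤ P.trace ∧ (P.trace = Fintype.card ι → P = 1) := by
  have hpos : ∀ i, 0 < hP.1.eigenvalues i := hP.eigenvalues_pos
  have hprod : ∏ i, hP.1.eigenvalues i = 1 := by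
    have := hP.1.det_eq_prod_eigenvalues
    rw [hdet] at this
    exact_mod_cast this.symm
  have hlog : ∑ i, Real.log (hP.1.eigenvalues i) = 0 := by
    rw [← Real.log_prod (fun i _ => (hpos i).ne'), hprod, Real.log_one]
  have htr : P.trace = ∑ i, hP.1.eigenvalues i := by
    have := hP.1.trace_eq_sum_eigenvalues
    exact_mod_cast this
  have hle : ∀ i, 0 ≤ hP.1.eigenvalues i - 1 - Real.log (hP.1.eigenvalues i) := by
    intro i
    have := Real.log_le_sub_one_of_pos (hpos i)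
    linarith
  have hsum : ∑ i, (hP.1.eigenvalues i - 1 - Real.log (hP.1.eigenvalues i))
      = P.trace - Fintype.card ι := by
    rw [Finset.sum_sub_distrib, Finset.sum_sub_distrib, hlog, ← htr]
    simp
  constructor
  · have := Finset.sum_nonneg fun i (_ : i ∈ Finset.univ) => hle i
    rw [hsum] at this
    linarith
  · intro h
    have h0 : ∑ i, (hP.1.eigenvalues i - 1 - Real.log (hP.1.eigenvalues i)) = 0 := by
      rw [hsum, h]; ring
    rw [Finset.sum_eq_zero_iff_of_nonneg (fun i _ => hle i)] at h0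
    have h1 : ∀ i, hP.1.eigenvalues i = 1 := by
      intro i
      by_contra hne
      have := Real.log_lt_sub_one_of_pos (hpos i) hne
      have := h0 i (Finset.mem_univ i)
      linarith
    have h2 : hP.1.eigenvalues = 1 := funext h1
    have h3 := hP.1.spectral_theorem
    rw [h2] at h3
    rw [h3]
    have : (RCLike.ofReal ∘ (1 : ι → ℝ) : ι → ℝ) = 1 := by
      funext i; simp
    rw [this]
    simp

open scoped MatrixOrder in
theorem exists_sq {S : Matrix ι ι ℝ} (hS : S.PosDef) :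
    ∃ B : Matrix ι ι ℝ, B.IsHermitian ∧ B * B = S ∧ IsUnit B := by
  have h0 : (0 : Matrix ι ι ℝ) ≤ S := hS.posSemidef.nonneg
  refine ⟨CFC.sqrt S, ?_, CFC.sqrt_mul_sqrt_self S h0, ?_⟩
  · exact (Matrix.nonneg_iff_posSemidef.1 (CFC.sqrt_nonneg S)).1
  · rw [Matrix.isUnit_iff_isUnit_det, isUnit_iff_ne_zero]
    intro h
    have h1 := congrArg Matrix.det (CFC.sqrt_mul_sqrt_self S h0)
    rw [Matrix.det_mul, h] at h1
    have := hS.det_pos
    rw [← h1] at this
    simp at this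

/-- AM-GM for a pair of positive definite matrices with equal determinants. -/
theorem trace_mul_inv_ge {S S' : Matrix ι ι ℝ} (hS : S.PosDef) (hS' : S'.PosDef)
    (hdet : S'.det = S.det) :
    (Fintype.card ι : ℝ) ≤ (S' * S⁻¹).trace ∧ ((S' * S⁻¹).trace = Fintype.card ι → S' = S) := by
  obtain ⟨B, hB, hBB, hBu⟩ := exists_sq hS
  have hBd : IsUnit B.det := (Matrix.isUnit_iff_isUnit_det B).1 hBu
  have hBinv : IsUnit B⁻¹ := (Matrix.isUnit_nonsing_inv_iff).2 hBu
  have hBh : (B⁻¹)ᴴ = B⁻¹ := by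
    rw [Matrix.conjTranspose_nonsing_inv, hB.eq]
  set P := B⁻¹ * S' * B⁻¹ with hPdef
  have hP : P.PosDef := by
    have := (Matrix.IsUnit.posDef_star_left_conjugate_iff (x := S') hBinv).2 hS'
    rwa [Matrix.star_eq_conjTranspose, hBh] at this
  have hSinv : S⁻¹ = B⁻¹ * B⁻¹ := by rw [← hBB, Matrix.mul_inv_rev]
  have hdetP : P.det = 1 := by
    rw [hPdef, Matrix.det_mul, Matrix.det_mul, hdet, ← hBB, Matrix.det_mul,
      Matrix.det_nonsing_inv, Ring.inverse_eq_inv']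
    field_simp [hBd.ne_zero]
  have htr : P.trace = (S' * S⁻¹).trace := by
    rw [hPdef, hSinv, Matrix.mul_assoc, Matrix.trace_mul_comm, Matrix.mul_assoc]
  have := trace_of_det_one hP hdetP
  rw [htr] at this
  refine ⟨this.1, fun h => ?_⟩
  have h1 := this.2 h
  have h2 : B * P * B = S' := by
    rw [hPdef]
    calc B * (B⁻¹ * S' * B⁻¹) * B = (B * B⁻¹) * S' * (B⁻¹ * B) := by simp only [Matrix.mul_assoc]
      _ = S' := by
        rw [Matrix.mul_nonsing_inv _ hBd, Matrix.nonsing_inv_mul _ hBd]; simp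
  rw [← h2, h1, Matrix.mul_one, hBB]

/-- determinant of a rank one perturbation of a matrix with kernel `y`. -/
theorem det_add_rank_one {A : Matrix ι ι ℝ} (hA : Aᵀ = A) {y : ι → ℝ} (hAy : A *ᵥ y = 0)
    (hy : y ≠ 0) {c : ℝ} (hc : 0 < c) (ν : ι → ℝ) :
    c * (c • A + vecMulVec ν ν).det =
      c ^ Fintype.card ι * ((ν ⬝ᵥ y) ^ 2 / (y ⬝ᵥ y) ^ 2) * (A + vecMulVec y y).det := by
  have hs : y ⬝ᵥ y ≠ 0 := by
    intro h; exact hy (dotProduct_self_eq_zero.1 h)
  set s := y ⬝ᵥ y with hsdef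
  have hyA : y ᵥ* A = 0 := by
    rw [← hA, Matrix.vecMul_transpose, hAy]
  set k := Real.sqrt c⁻¹ with hk
  have hkk : k * k = c⁻¹ := Real.mul_self_sqrt (inv_nonneg.2 hc.le)
  let w : ι → ℝ := s⁻¹ • (k • ν - y)
  let M : Matrix ι ι ℝ := 1 + vecMulVec y w
  have hMT : Mᵀ = 1 + vecMulVec w y := by
    simp [M, Matrix.transpose_add]
  have hMA : Mᵀ * A * M = A := by
    rw [hMT]
    simp only [M]
    rw [Matrix.add_mul, Matrix.one_mul, Matrix.vecMulVec_mul, hyA]
    simp [Matrix.mul_add, Matrix.mul_vecMulVec, hAy]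
  have hMy : Mᵀ *ᵥ y = k • ν := by
    rw [hMT, Matrix.add_mulVec, Matrix.one_mulVec, Matrix.vecMulVec_mulVec]
    ext i
    simp only [w, ← hsdef, Pi.add_apply, Pi.smul_apply, Pi.sub_apply, smul_eq_mul,
      MulOpposite.smul_eq_mul_unop, MulOpposite.unop_op]
    field_simp
    ring
  have hMyy : Mᵀ * vecMulVec y y * M = (k * k) • vecMulVec ν ν := by
    rw [Matrix.mul_vecMulVec, hMy, Matrix.vecMulVec_mul]
    have : y ᵥ* M = Mᵀ *ᵥ y := (Matrix.mulVec_transpose M y).symm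
    rw [this, hMy, Matrix.smul_vecMulVec, Matrix.vecMulVec_smul, smul_smul]
  have hdetM : M.det = k * (ν ⬝ᵥ y) / s := by
    have h1 : M = 1 + replicateCol Unit y * replicateRow Unit w := by
      simp only [M]
      rw [Matrix.vecMulVec_eq Unit]
    rw [h1, Matrix.det_one_add_replicateCol_mul_replicateRow]
    simp only [w, smul_dotProduct, sub_dotProduct, ← hsdef, smul_eq_mul]
    field_simp
    ring
  have hkey : (A + c⁻¹ • vecMulVec ν ν).det = (k * (ν ⬝ᵥ y) / s) ^ 2 * (A + vecMulVec y y).det := by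
    have h1 : Mᵀ * (A + vecMulVec y y) * M = A + c⁻¹ • vecMulVec ν ν := by
      rw [Matrix.mul_add Mᵀ A, Matrix.add_mul (Mᵀ * A) _ M, hMA, hMyy, hkk]
    rw [← h1, Matrix.det_mul, Matrix.det_mul, Matrix.det_transpose, hdetM]
    ring
  have h2 : c • A + vecMulVec ν ν = c • (A + c⁻¹ • vecMulVec ν ν) := by
    rw [smul_add, smul_smul, mul_inv_cancel₀ hc.ne', one_smul]
  rw [h2, Matrix.det_smul, hkey]
  have h3 : c * (c ^ Fintype.card ι * ((k * (ν ⬝ᵥ y) / s) ^ 2 * (A + vecMulVec y y).det))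
      = c ^ Fintype.card ι * ((c * (k * k)) * ((ν ⬝ᵥ y) ^ 2 / s ^ 2)) * (A + vecMulVec y y).det := by
    field_simp
  rw [h3, hkk, mul_inv_cancel₀ hc.ne', one_mul]

omit [DecidableEq ι] in
/-- positivity of the rank one perturbation. -/
theorem posDef_add_rank_one {A : Matrix ι ι ℝ} (hA : Aᵀ = A) {y : ι → ℝ} (hAy : A *ᵥ y = 0)
    (hpos : ∀ v : ι → ℝ, v ∉ Submodule.span ℝ {y} → 0 < v ⬝ᵥ (A *ᵥ v)) {c : ℝ} (hc : 0 < c)
    {ν : ι → ℝ} (hν : ν ⬝ᵥ y ≠ 0) : (c • A + vecMulVec ν ν).PosDef := by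
  refine Matrix.PosDef.of_dotProduct_mulVec_pos ?_ ?_
  · rw [Matrix.IsHermitian, Matrix.conjTranspose_eq_transpose_of_trivial]
    simp [Matrix.transpose_add, hA]
  · intro v hv
    have h1 : star v ⬝ᵥ ((c • A + vecMulVec ν ν) *ᵥ v)
        = c * (v ⬝ᵥ (A *ᵥ v)) + (ν ⬝ᵥ v) ^ 2 := by
      rw [star_trivial, Matrix.add_mulVec, dotProduct_add, Matrix.smul_mulVec, dotProduct_smul,
        Matrix.vecMulVec_mulVec]
      have : v ⬝ᵥ (MulOpposite.op (ν ⬝ᵥ v) • ν) = (ν ⬝ᵥ v) ^ 2 := by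
        rw [op_smul_eq_smul, dotProduct_smul, smul_eq_mul, dotProduct_comm v ν]; ring
      rw [this, smul_eq_mul]
    rw [h1]
    by_cases hvs : v ∈ Submodule.span ℝ {y}
    · obtain ⟨t, rfl⟩ := Submodule.mem_span_singleton.1 hvs
      have ht : t ≠ 0 := by
        rintro rfl; simp at hv
      rw [Matrix.mulVec_smul, hAy]
      simp only [smul_zero, dotProduct_zero, mul_zero, zero_add, dotProduct_smul, smul_eq_mul]
      positivity
    · have := hpos v hvs
      positivity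

/-- traces against the inverse of the rank one perturbation. -/
theorem trace_formulas {A : Matrix ι ι ℝ} (hA : Aᵀ = A) {y : ι → ℝ} (hAy : A *ᵥ y = 0)
    {c : ℝ} {ν : ι → ℝ} (hν : ν ⬝ᵥ y ≠ 0) (hS : IsUnit (c • A + vecMulVec ν ν)) (u : ι → ℝ) :
    (vecMulVec u ν * (c • A + vecMulVec ν ν)⁻¹).trace = (u ⬝ᵥ y) / (ν ⬝ᵥ y) := by
  set S := c • A + vecMulVec ν ν with hSdef
  have hyA : y ᵥ* A = 0 := by
    rw [← hA, Matrix.vecMul_transpose, hAy]
  have h1 : y ᵥ* S = (ν ⬝ᵥ y) • ν := by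
    rw [hSdef, Matrix.vecMul_add, Matrix.vecMul_smul, hyA, Matrix.vecMul_vecMulVec, smul_zero,
      zero_add, dotProduct_comm]
  have h2 : ν ᵥ* S⁻¹ = (ν ⬝ᵥ y)⁻¹ • y := by
    have h3 : (y ᵥ* S) ᵥ* S⁻¹ = y := by
      rw [Matrix.vecMul_vecMul, Matrix.mul_nonsing_inv _ ((Matrix.isUnit_iff_isUnit_det S).1 hS),
        Matrix.vecMul_one]
    rw [h1, Matrix.smul_vecMul] at h3
    have h4 := congrArg (fun z => (ν ⬝ᵥ y)⁻¹ • z) h3
    simp only [smul_smul, inv_mul_cancel₀ hν, one_smul] at h4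
    exact h4
  rw [Matrix.vecMulVec_mul, Matrix.trace_vecMulVec, h2, dotProduct_smul, smul_eq_mul]
  ring

end Pool.Agent.Helper14.Cov
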