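import Pool.Agent.Helper77.Cov.Defs
import Pool.Agent.Helper14.Cov.MatAlg

/-! Calculus of 1-homogeneous functions (helper file for MP_fb1ba4_gt). -/

open MeasureTheory Set Filter Topology Matrix

namespace Pool.Agent.Helper14.Cov

open Pool.Agent.Helper77.Cov

variable {n : ℕ} {h : V n → ℝ}

/-- Positive 1-homogeneous `C²` functions with transversally positive definite Hessian. -/
structure Adm (h : V n → ℝ) : Prop where
  c2 : ContDiffOn ℝ 2 h {0}ᶜ
  hom : ∀ t : ℝ, 0 < t → ∀ y, h (t • y) = t * h y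
  pos : ∀ y, y ≠ 0 → 0 < h y
  conv : ∀ y, y ≠ 0 → ∀ v, v ∉ Submodule.span ℝ {y} → 0 < fderiv ℝ (fderiv ℝ h) y v v

/-- gradient coordinates -/
noncomputable def gr (h : V n → ℝ) (y : V n) : Fin n → ℝ :=
  fun i => fderiv ℝ h y (EuclideanSpace.single i 1)

namespace Adm

theorem cda (H : Adm h) {y : V n} (hy : y ≠ 0) : ContDiffAt ℝ 2 h y :=
  H.c2.contDiffAt (isOpen_compl_singleton.mem_nhds hy)

theorem hf (H : Adm h) {y : V n} (hy : y ≠ 0) : HasFDerivAt h (fderiv ℝ h y) y :=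
  ((H.cda hy).differentiableAt (by norm_num)).hasFDerivAt

theorem hf2 (H : Adm h) {y : V n} (hy : y ≠ 0) :
    HasFDerivAt (fderiv ℝ h) (fderiv ℝ (fderiv ℝ h) y) y := by
  have : ContDiffAt ℝ 1 (fderiv ℝ h) y := (H.cda hy).fderiv_right (by norm_num)
  exact (this.differentiableAt (by norm_num)).hasFDerivAt

theorem cont (H : Adm h) : ContinuousOn h {0}ᶜ := H.c2.continuousOn

theorem cont1 (H : Adm h) : ContinuousOn (fderiv ℝ h) {0}ᶜ :=
  fun _ hy => (H.hf2 hy).continuousAt.continuousWithinAt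

theorem cont2 (H : Adm h) : ContinuousOn (fderiv ℝ (fderiv ℝ h)) {0}ᶜ := by
  intro y hy
  have h1 : ContDiffAt ℝ 1 (fderiv ℝ h) y := (H.cda hy).fderiv_right (by norm_num)
  have h2 : ContDiffAt ℝ 0 (fderiv ℝ (fderiv ℝ h)) y := h1.fderiv_right (by norm_num)
  exact h2.continuousAt.continuousWithinAt

theorem fderiv_hom (H : Adm h) {t : ℝ} (ht : 0 < t) {y : V n} (hy : y ≠ 0) :
    fderiv ℝ h (t • y) = fderiv ℝ h y := by
  have h1 : fderiv ℝ (fun x => h (t • x)) y = t • fderiv ℝ h (t • y) := fderiv_comp_smul t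
  have h2 : (fun x => h (t • x)) = fun x => t * h x := by
    funext x; exact H.hom t ht x
  rw [h2, fderiv_const_mul (H.hf hy).differentiableAt] at h1
  exact (smul_right_injective _ ht.ne' h1).symm

theorem fderiv2_hom (H : Adm h) {t : ℝ} (ht : 0 < t) {y : V n} (hy : y ≠ 0) :
    t • fderiv ℝ (fderiv ℝ h) (t • y) = fderiv ℝ (fderiv ℝ h) y := by
  have h1 : fderiv ℝ (fun x => fderiv ℝ h (t • x)) y = t • fderiv ℝ (fderiv ℝ h) (t • y) :=
    fderiv_comp_smul (f := fderiv ℝ h) t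
  rw [← h1]
  apply Filter.EventuallyEq.fderiv_eq
  filter_upwards [isOpen_compl_singleton.mem_nhds hy] with x hx
  exact H.fderiv_hom ht hx

theorem euler (H : Adm h) {y : V n} (hy : y ≠ 0) : fderiv ℝ h y y = h y := by
  have h1 : HasDerivAt (fun t : ℝ => h (t • y)) (fderiv ℝ h y y) 1 := by
    have h2 : HasDerivAt (fun t : ℝ => t • y) ((1 : ℝ) • y) 1 := (hasDerivAt_id (1 : ℝ)).smul_const y
    have h3 : HasFDerivAt h (fderiv ℝ h y) ((1 : ℝ) • y) := by rw [one_smul]; exact H.hf hy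
    have := h3.comp_hasDerivAt (1 : ℝ) h2
    rw [one_smul] at this
    exact this
  have h4 : HasDerivAt (fun t : ℝ => t * h y) (h y) 1 := by
    simpa using (hasDerivAt_id (1 : ℝ)).mul_const (h y)
  have h5 : (fun t : ℝ => h (t • y)) =ᶠ[𝓝 1] fun t => t * h y := by
    filter_upwards [lt_mem_nhds (zero_lt_one : (0 : ℝ) < 1)] with t ht
    exact H.hom t ht y
  exact h1.unique (h4.congr_of_eventuallyEq h5)

theorem euler2 (H : Adm h) {y : V n} (hy : y ≠ 0) : fderiv ℝ (fderiv ℝ h) y y = 0 := by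
  have h1 : HasDerivAt (fun t : ℝ => fderiv ℝ h (t • y)) (fderiv ℝ (fderiv ℝ h) y y) 1 := by
    have h2 : HasDerivAt (fun t : ℝ => t • y) ((1 : ℝ) • y) 1 := (hasDerivAt_id (1 : ℝ)).smul_const y
    have h3 : HasFDerivAt (fderiv ℝ h) (fderiv ℝ (fderiv ℝ h) y) ((1 : ℝ) • y) := by
      rw [one_smul]; exact H.hf2 hy
    have := h3.comp_hasDerivAt (1 : ℝ) h2
    rw [one_smul] at this
    exact this
  have h4 : HasDerivAt (fun _ : ℝ => fderiv ℝ h y) 0 1 := hasDerivAt_const _ _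
  have h5 : (fun t : ℝ => fderiv ℝ h (t • y)) =ᶠ[𝓝 1] fun _ => fderiv ℝ h y := by
    filter_upwards [lt_mem_nhds (zero_lt_one : (0 : ℝ) < 1)] with t ht
    exact H.fderiv_hom ht hy
  exact h1.unique (h4.congr_of_eventuallyEq h5)

theorem symm (H : Adm h) {y : V n} (hy : y ≠ 0) (v w : V n) :
    fderiv ℝ (fderiv ℝ h) y v w = fderiv ℝ (fderiv ℝ h) y w v :=
  (H.cda hy).isSymmSndFDerivAt (by simp) v w

end Adm

theorem sum_single (v : V n) : v = ∑ i, v i • (EuclideanSpace.single i 1 : V n) := by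
  ext j
  simp [Pi.single_apply]

theorem apply_eq_dot (ℓ : V n →L[ℝ] ℝ) (v : V n) :
    ℓ v = (fun i => ℓ (EuclideanSpace.single i 1)) ⬝ᵥ (v : Fin n → ℝ) := by
  conv_lhs => rw [sum_single v]
  simp [dotProduct, map_sum, mul_comm]

theorem gr_dot (h : V n → ℝ) (y v : V n) :
    gr h y ⬝ᵥ (v : Fin n → ℝ) = fderiv ℝ h y v := (apply_eq_dot _ v).symm

theorem hess_mulVec (h : V n → ℝ) (y v : V n) (i : Fin n) :
    (hess h y *ᵥ (v : Fin n → ℝ)) i = fderiv ℝ (fderiv ℝ h) y (EuclideanSpace.single i 1) v := by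
  rw [apply_eq_dot]
  rfl

theorem dot_hess (h : V n → ℝ) (y v w : V n) :
    (v : Fin n → ℝ) ⬝ᵥ (hess h y *ᵥ (w : Fin n → ℝ)) = fderiv ℝ (fderiv ℝ h) y v w := by
  conv_rhs => rw [sum_single v]
  simp only [map_sum, map_smul, _root_.sum_apply, _root_.smul_apply,
    smul_eq_mul, dotProduct]
  exact Finset.sum_congr rfl fun i _ => by rw [hess_mulVec]

namespace Adm

theorem hess_symm (H : Adm h) {y : V n} (hy : y ≠ 0) : (hess h y)ᵀ = hess h y := by
  ext i j
  simp only [hess, Matrix.transpose_apply, Matrix.of_apply]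
  exact H.symm hy _ _

theorem hess_ker (H : Adm h) {y : V n} (hy : y ≠ 0) : hess h y *ᵥ (y : Fin n → ℝ) = 0 := by
  ext i
  rw [hess_mulVec, H.symm hy, H.euler2 hy]
  simp

theorem gr_dot_self (H : Adm h) {y : V n} (hy : y ≠ 0) : gr h y ⬝ᵥ (y : Fin n → ℝ) = h y := by
  rw [gr_dot, H.euler hy]

theorem gr_hom (H : Adm h) {t : ℝ} (ht : 0 < t) {y : V n} (hy : y ≠ 0) :
    gr h (t • y) = gr h y := by
  unfold gr; rw [H.fderiv_hom ht hy]

theorem hess_hom (H : Adm h) {t : ℝ} (ht : 0 < t) {y : V n} (hy : y ≠ 0) :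
    t • hess h (t • y) = hess h y := by
  ext i j
  simp only [hess, Matrix.smul_apply, Matrix.of_apply]
  rw [← H.fderiv2_hom ht hy]
  simp

theorem hess_pos (H : Adm h) {y : V n} (hy : y ≠ 0) (v : Fin n → ℝ)
    (hv : v ∉ Submodule.span ℝ {(y : Fin n → ℝ)}) : 0 < v ⬝ᵥ (hess h y *ᵥ v) := by
  have h1 := dot_hess h y (WithLp.toLp 2 v) (WithLp.toLp 2 v)
  rw [WithLp.ofLp_toLp] at h1
  rw [h1]
  apply H.conv y hy
  intro hmem
  obtain ⟨t, ht⟩ := Submodule.mem_span_singleton.1 hmem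
  apply hv
  rw [Submodule.mem_span_singleton]
  refine ⟨t, ?_⟩
  have := congrArg WithLp.ofLp ht
  simpa using this

theorem gr_cont (H : Adm h) : ContinuousOn (gr h) {0}ᶜ := by
  rw [continuousOn_pi]
  intro i
  exact H.cont1.clm_apply continuousOn_const

theorem hess_cont (H : Adm h) : ContinuousOn (hess h) {0}ᶜ := by
  refine continuousOn_pi.2 fun i => continuousOn_pi.2 fun j => ?_
  exact (H.cont2.clm_apply continuousOn_const).clm_apply continuousOn_const

theorem ofLp_ne {y : V n} (hy : y ≠ 0) : (y : Fin n → ℝ) ≠ 0 := by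
  intro h0; exact hy ((WithLp.ofLp_eq_zero 2).1 h0)

end Adm

/-- the matrix `S` -/
noncomputable def SS (c : ℝ) (g h : V n → ℝ) (y : V n) : Matrix (Fin n) (Fin n) ℝ :=
  c • hess g y + vecMulVec (gr h y) (gr h y)

theorem SS_posDef {g : V n → ℝ} (Hg : Adm g) (H : Adm h) {y : V n} (hy : y ≠ 0) {c : ℝ}
    (hc : 0 < c) : (SS c g h y).PosDef := by
  refine posDef_add_rank_one (Hg.hess_symm hy) (Hg.hess_ker hy) (Hg.hess_pos hy) hc ?_
  rw [H.gr_dot_self hy]
  exact (H.pos y hy).ne'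

end Pool.Agent.Helper14.Cov
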