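import Mathlib

/-! Weak Piola identity for injective local diffeomorphisms (helper file for MP_fb1ba4_gt). -/

open MeasureTheory Set Filter Topology

namespace Pool.Agent.Helper14.Cov

variable {E : Type*} [NormedAddCommGroup E] [NormedSpace ℝ E] [FiniteDimensional ℝ E]
  [MeasurableSpace E] [BorelSpace E]

/-- The integral of a directional derivative of a compactly supported `C¹` map vanishes. -/
theorem integral_dir_deriv_zero {F : Type*} [NormedAddCommGroup F] [NormedSpace ℝ F]
    (μ : Measure E) [μ.IsAddHaarMeasure] {T : E → F} {T' : E → E →L[ℝ] F}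
    (hT : ∀ x, HasFDerivAt T (T' x) x) (hT' : Continuous T') (hs : HasCompactSupport T) (v : E) :
    ∫ x, T' x v ∂μ = 0 := by
  have hTc : Continuous T := continuous_iff_continuousAt.2 fun x => (hT x).continuousAt
  have hT'e : T' = fderiv ℝ T := by
    funext x; exact (hT x).fderiv.symm
  have hint : Integrable (fun x => fderiv ℝ T x v) μ := by
    refine Continuous.integrable_of_hasCompactSupport ?_ (hs.fderiv_apply ℝ v)
    rw [← hT'e]
    fun_prop
  have hint2 : Integrable T μ := hTc.integrable_of_hasCompactSupport hs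
  have h := integral_smul_fderiv_eq_neg_fderiv_smul_of_integrable (μ := μ)
    (f := fun _ : E => (1 : ℝ)) (g := T) (v := v) (by simp) (by simpa using hint)
    (by simpa using hint2) (fun x _ => by fun_prop) (fun x _ => (hT x).differentiableAt)
  rw [hT'e]
  simpa using h

/-- The integral of the divergence of a compactly supported `C¹` vector field vanishes. -/
theorem integral_trace_zero
    (μ : Measure E) [μ.IsAddHaarMeasure] {T : E → E} {T' : E → E →L[ℝ] E}
    (hT : ∀ x, HasFDerivAt T (T' x) x) (hT' : Continuous T') (hs : HasCompactSupport T) :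
    ∫ x, LinearMap.trace ℝ E (T' x : E →ₗ[ℝ] E) ∂μ = 0 := by
  have hTc : Continuous T := continuous_iff_continuousAt.2 fun x => (hT x).continuousAt
  have hT'e : T' = fderiv ℝ T := by
    funext x; exact (hT x).fderiv.symm
  let b := Module.finBasis ℝ E
  have htr : ∀ x, LinearMap.trace ℝ E (T' x : E →ₗ[ℝ] E)
      = ∑ i, (b.coord i).toContinuousLinearMap (T' x (b i)) := by
    intro x
    rw [LinearMap.trace_eq_matrix_trace ℝ b, Matrix.trace]
    simp [LinearMap.toMatrix_apply]
  have hint : ∀ i, Integrable (fun x => T' x (b i)) μ := by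
    intro i
    refine Continuous.integrable_of_hasCompactSupport (by fun_prop) ?_
    rw [hT'e]
    exact hs.fderiv_apply ℝ _
  simp_rw [htr]
  rw [integral_finsetSum _ (fun i _ => (b.coord i).toContinuousLinearMap.integrable_comp (hint i))]
  apply Finset.sum_eq_zero
  intro i _
  rw [ContinuousLinearMap.integral_comp_comm _ (hint i), integral_dir_deriv_zero μ hT hT' hs]
  simp

/-- **Weak Piola identity**. -/
theorem piola (μ : Measure E) [μ.IsAddHaarMeasure] {Ω : Set E} (hΩ : IsOpen Ω) {Φ : E → E}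
    {Φ' : E → E →L[ℝ] E} (hΦ : ∀ y ∈ Ω, HasFDerivAt Φ (Φ' y) y) (hΦ'c : ContinuousOn Φ' Ω)
    (hinj : InjOn Φ Ω) (hdet : ∀ y ∈ Ω, (Φ' y).det ≠ 0) {W : E → E} {W' : E → E →L[ℝ] E}
    (hW : ∀ y ∈ Ω, HasFDerivAt W (W' y) y) (hW'c : ContinuousOn W' Ω) {K : Set E}
    (hK : IsCompact K) (hKΩ : K ⊆ Ω) (hWK : ∀ y ∈ Ω, y ∉ K → W y = 0) :
    ∫ y in Ω, |(Φ' y).det| *
      LinearMap.trace ℝ E (((W' y) ∘L (Φ' y).inverse : E →L[ℝ] E) : E →ₗ[ℝ] E) ∂μ = 0 := by
  classical
  -- the derivative as an equivalence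
  have hequiv : ∀ y ∈ Ω, ∃ e : E ≃L[ℝ] E, (e : E →L[ℝ] E) = Φ' y := by
    intro y hy
    have h := hdet y hy
    refine ⟨ContinuousLinearMap.toContinuousLinearEquivOfDetNeZero (Φ' y) h, ?_⟩
    ext x
    simp
  have hΦc : ContinuousOn Φ Ω := fun y hy => (hΦ y hy).continuousAt.continuousWithinAt
  -- the inverse map
  let g : E → E := Function.invFunOn Φ Ω
  have hg : ∀ y ∈ Ω, g (Φ y) = y := fun y hy => hinj.leftInvOn_invFunOn hy
  let T : E → E := fun x => if x ∈ Φ '' Ω then W (g x) else 0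
  let T' : E → E →L[ℝ] E := fun x => if x ∈ Φ '' Ω then (W' (g x)) ∘L (Φ' (g x)).inverse else 0
  have hW'K : ∀ y ∈ Ω, y ∉ K → W' y = 0 := by
    intro y hy hyK
    have h1 : W =ᶠ[𝓝 y] fun _ => 0 := by
      filter_upwards [hΩ.mem_nhds hy, hK.isClosed.isOpen_compl.mem_nhds hyK] with z hz hzK
      exact hWK z hz hzK
    exact (hW y hy).unique ((hasFDerivAt_const (0 : E) y).congr_of_eventuallyEq h1)
  have hΦK : IsCompact (Φ '' K) := hK.image_of_continuousOn (hΦc.mono hKΩ)
  -- local structure at points of the image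
  have hloc : ∀ y ∈ Ω, (∀ᶠ x in 𝓝 (Φ y), x ∈ Φ '' Ω) ∧ ContinuousAt g (Φ y) ∧
      HasFDerivAt g ((Φ' y).inverse) (Φ y) := by
    intro y hy
    obtain ⟨e, he⟩ := hequiv y hy
    have hstrict : HasStrictFDerivAt Φ (e : E →L[ℝ] E) y := by
      rw [he]
      refine hasStrictFDerivAt_of_hasFDerivAt_of_continuousAt ?_ (hΦ'c.continuousAt (hΩ.mem_nhds hy))
      filter_upwards [hΩ.mem_nhds hy] with z hz using hΦ z hz
    have h1 : ∀ᶠ x in 𝓝 (Φ y), Φ (hstrict.localInverse Φ e y x) = x := hstrict.eventually_right_inverse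
    have h2 : ∀ᶠ x in 𝓝 (Φ y), hstrict.localInverse Φ e y x ∈ Ω :=
      hstrict.localInverse_tendsto (hΩ.mem_nhds hy)
    have h3 : g =ᶠ[𝓝 (Φ y)] hstrict.localInverse Φ e y := by
      filter_upwards [h1, h2] with x hx1 hx2
      conv_lhs => rw [← hx1]
      exact hg _ hx2
    have h4 : HasFDerivAt g ((Φ' y).inverse) (Φ y) := by
      have := hstrict.to_localInverse.hasFDerivAt.congr_of_eventuallyEq h3
      rw [← he]
      simpa using this
    refine ⟨?_, h4.continuousAt, h4⟩
    filter_upwards [h1, h2] with x hx1 hx2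
    exact ⟨_, hx2, hx1⟩
  have hTe : ∀ x ∉ Φ '' K, T =ᶠ[𝓝 x] fun _ => 0 := by
    intro x hx
    filter_upwards [hΦK.isClosed.isOpen_compl.mem_nhds hx] with z hz
    by_cases hz' : z ∈ Φ '' Ω
    · obtain ⟨y, hy, rfl⟩ := hz'
      have : y ∉ K := fun h => hz ⟨y, h, rfl⟩
      simp only [T, if_pos (mem_image_of_mem Φ hy), hg y hy, hWK y hy this]
    · simp only [T, if_neg hz']
  have hT'e : ∀ x ∉ Φ '' K, T' =ᶠ[𝓝 x] fun _ => 0 := by
    intro x hx
    filter_upwards [hΦK.isClosed.isOpen_compl.mem_nhds hx] with z hz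
    by_cases hz' : z ∈ Φ '' Ω
    · obtain ⟨y, hy, rfl⟩ := hz'
      have : y ∉ K := fun h => hz ⟨y, h, rfl⟩
      simp [T', hg y hy, hW'K y hy this]
    · simp only [T', if_neg hz']
  have hT : ∀ x, HasFDerivAt T (T' x) x := by
    intro x
    by_cases hx : x ∈ Φ '' Ω
    · obtain ⟨y, hy, rfl⟩ := hx
      obtain ⟨h1, h2, h3⟩ := hloc y hy
      have h4 : T =ᶠ[𝓝 (Φ y)] W ∘ g := by
        filter_upwards [h1] with z hz
        simp only [T, if_pos hz, Function.comp]
      have h5 : T' (Φ y) = (W' y) ∘L (Φ' y).inverse := by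
        simp only [T', if_pos (mem_image_of_mem Φ hy), hg y hy]
      rw [h5]
      refine HasFDerivAt.congr_of_eventuallyEq ?_ h4
      have h6 : HasFDerivAt W (W' y) (g (Φ y)) := by rw [hg y hy]; exact hW y hy
      exact h6.comp (Φ y) h3
    · have hx' : x ∉ Φ '' K := fun h => hx (image_mono hKΩ h)
      have h5 : T' x = 0 := (hT'e x hx').self_of_nhds
      rw [h5]
      exact (hasFDerivAt_const (0 : E) x).congr_of_eventuallyEq (hTe x hx')
  have hT'c : Continuous T' := by
    rw [continuous_iff_continuousAt]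
    intro x
    by_cases hx : x ∈ Φ '' Ω
    · obtain ⟨y, hy, rfl⟩ := hx
      obtain ⟨h1, h2, h3⟩ := hloc y hy
      have h4 : T' =ᶠ[𝓝 (Φ y)] fun x => (W' (g x)) ∘L (Φ' (g x)).inverse := by
        filter_upwards [h1] with z hz
        simp only [T', if_pos hz]
      refine ContinuousAt.congr ?_ h4.symm
      have hW1 : ContinuousAt (fun x => W' (g x)) (Φ y) := by
        refine ContinuousAt.comp (g := W') ?_ h2
        rw [hg y hy]; exact hW'c.continuousAt (hΩ.mem_nhds hy)
      have hW2 : ContinuousAt (fun x => Φ' (g x)) (Φ y) := by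
        refine ContinuousAt.comp (g := Φ') ?_ h2
        rw [hg y hy]; exact hΦ'c.continuousAt (hΩ.mem_nhds hy)
      have hW3 : ContinuousAt (fun x => (Φ' (g x)).inverse) (Φ y) := by
        obtain ⟨e, he⟩ := hequiv y hy
        have : ContinuousAt (ContinuousLinearMap.inverse : (E →L[ℝ] E) → _) (Φ' (g (Φ y))) := by
          rw [hg y hy, ← he]
          exact (contDiffAt_map_inverse (n := 0) e).continuousAt
        exact ContinuousAt.comp (g := ContinuousLinearMap.inverse) this hW2
      exact hW1.clm_comp hW3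
    · have hx' : x ∉ Φ '' K := fun h => hx (image_mono hKΩ h)
      exact (continuousAt_const (y := (0 : E →L[ℝ] E))).congr (hT'e x hx').symm
  have hTs : HasCompactSupport T := by
    refine HasCompactSupport.intro hΦK ?_
    intro x hx
    exact (hTe x hx).self_of_nhds
  have hmain := integral_trace_zero μ hT hT'c hTs
  have himg : MeasurableSet (Φ '' Ω) := by
    have : IsOpen (Φ '' Ω) := by
      rw [isOpen_iff_mem_nhds]
      rintro _ ⟨y, hy, rfl⟩
      exact (hloc y hy).1
    exact this.measurableSet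
  have h1 : ∫ x, LinearMap.trace ℝ E (T' x : E →ₗ[ℝ] E) ∂μ
      = ∫ x in Φ '' Ω, LinearMap.trace ℝ E (T' x : E →ₗ[ℝ] E) ∂μ := by
    refine (setIntegral_eq_integral_of_forall_compl_eq_zero ?_).symm
    intro x hx
    simp only [T', if_neg hx]
    simp
  rw [h1, integral_image_eq_integral_abs_det_fderiv_smul μ hΩ.measurableSet
    (fun y hy => (hΦ y hy).hasFDerivWithinAt) hinj] at hmain
  rw [← hmain]
  refine setIntegral_congr_fun hΩ.measurableSet ?_
  intro y hy
  simp only [T', if_pos (mem_image_of_mem Φ hy), hg y hy, smul_eq_mul]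

end Pool.Agent.Helper14.Cov
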