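import Mathlib

/-! Polar coordinates for homogeneous functions (helper file for MP_fb1ba4_gt). -/

open MeasureTheory Set Filter Topology Metric

namespace Pool.Agent.Helper14.Cov

variable {E : Type*} [NormedAddCommGroup E] [NormedSpace ℝ E] [FiniteDimensional ℝ E]

/-- Sub-level annuli of a positive 1-homogeneous function are contained in a compact subset of the
punctured space. -/
theorem exists_compact_annulus {h : E → ℝ} (hc : ContinuousOn h {0}ᶜ)
    (hh : ∀ t : ℝ, 0 < t → ∀ y, h (t • y) = t * h y) (hp : ∀ y, y ≠ 0 → 0 < h y)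
    {a b : ℝ} (ha : 0 < a) :
    ∃ K : Set E, IsCompact K ∧ K ⊆ {0}ᶜ ∧ ∀ y, y ≠ 0 → h y ∈ Icc a b → y ∈ K := by
  by_cases hE : Nontrivial E
  · have hS : IsCompact (sphere (0 : E) 1) := isCompact_sphere 0 1
    have hSne : (sphere (0 : E) 1).Nonempty := NormedSpace.sphere_nonempty.2 zero_le_one
    have hSs : sphere (0 : E) 1 ⊆ {0}ᶜ := by
      intro x hx hx0
      rw [mem_singleton_iff] at hx0
      subst hx0
      simp at hx
    obtain ⟨u, hu, hmin⟩ := hS.exists_isMinOn hSne (hc.mono hSs)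
    obtain ⟨v, hv, hmax⟩ := hS.exists_isMaxOn hSne (hc.mono hSs)
    have hu0 : 0 < h u := hp u (hSs hu)
    have hv0 : 0 < h v := hp v (hSs hv)
    have hbd : ∀ y, y ≠ 0 → ‖y‖ * h u ≤ h y ∧ h y ≤ ‖y‖ * h v := by
      intro y hy
      have hn : 0 < ‖y‖ := norm_pos_iff.2 hy
      have hmem : ‖y‖⁻¹ • y ∈ sphere (0 : E) 1 := by
        simp [norm_smul, hn.ne']
      have h1 : h y = ‖y‖ * h (‖y‖⁻¹ • y) := by
        rw [← hh _ hn, smul_smul, mul_inv_cancel₀ hn.ne', one_smul]
      rw [h1]
      exact ⟨mul_le_mul_of_nonneg_left (hmin hmem) hn.le,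
        mul_le_mul_of_nonneg_left (hmax hmem) hn.le⟩
    refine ⟨closedBall 0 (b / h u) \ ball 0 (a / h v), ?_, ?_, ?_⟩
    · exact (isCompact_closedBall 0 _).diff isOpen_ball
    · rintro x ⟨-, hx⟩ hx0
      rw [mem_singleton_iff] at hx0
      subst hx0
      apply hx
      exact mem_ball_self (by positivity)
    · rintro y hy ⟨h1, h2⟩
      obtain ⟨h3, h4⟩ := hbd y hy
      constructor
      · rw [mem_closedBall_zero_iff, le_div_iff₀ hu0]
        exact h3.trans h2
      · rw [mem_ball_zero_iff, not_lt, div_le_iff₀ hv0]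
        exact h1.trans h4
  · refine ⟨∅, isCompact_empty, empty_subset _, ?_⟩
    intro y hy
    exact absurd ⟨y, 0, hy⟩ hE

variable [MeasurableSpace E] [BorelSpace E]

/-- A function continuous off zero and supported in a compact subset of the punctured space is
integrable there. -/
theorem integrableOn_of_annulus (μ : Measure E) [μ.IsAddHaarMeasure] {f : E → ℝ}
    (hf : ContinuousOn f {0}ᶜ) {K : Set E} (hK : IsCompact K) (hK0 : K ⊆ {0}ᶜ)
    (hfK : ∀ y, y ≠ 0 → y ∉ K → f y = 0) : IntegrableOn f {0}ᶜ μ := by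
  have h1 : IntegrableOn f K μ := (hf.mono hK0).integrableOn_compact hK
  refine h1.of_forall_sdiff_eq_zero (measurableSet_singleton _).compl ?_
  rintro x ⟨hx, hxK⟩
  exact hfK x hx hxK

/-- Polar integration of `ψ(h) G` with `G` homogeneous of degree `-dim`. -/
theorem polar_homog (μ : Measure E) [μ.IsAddHaarMeasure] [Nontrivial E] {h G : E → ℝ}
    (hc : ContinuousOn h {0}ᶜ)
    (hh : ∀ t : ℝ, 0 < t → ∀ y, h (t • y) = t * h y) (hp : ∀ y, y ≠ 0 → 0 < h y)
    (hG : ContinuousOn G {0}ᶜ)
    (hGh : ∀ t : ℝ, 0 < t → ∀ y, y ≠ 0 → t ^ (Module.finrank ℝ E) * G (t • y) = G y)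
    {ψ : ℝ → ℝ} (hψ : Continuous ψ) {a b : ℝ} (ha : 0 < a) (hψs : ∀ t, t ∉ Icc a b → ψ t = 0) :
    ∫ y in {0}ᶜ, ψ (h y) * G y ∂μ =
      (∫ t in Ioi (0 : ℝ), ψ t / t) * ∫ u : sphere (0 : E) 1, G u ∂(μ.toSphere) := by
  set f : E → ℝ := fun y => ψ (h y) * G y with hfdef
  obtain ⟨K, hK, hK0, hKm⟩ := exists_compact_annulus hc hh hp (b := b) ha
  have hfc : ContinuousOn f {0}ᶜ := (hψ.comp_continuousOn hc).mul hG
  have hfK : ∀ y, y ≠ 0 → y ∉ K → f y = 0 := by
    intro y hy hyK
    have : h y ∉ Icc a b := fun hh' => hyK (hKm y hy hh')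
    simp [hfdef, hψs _ this]
  have hfint : IntegrableOn f {0}ᶜ μ := integrableOn_of_annulus μ hfc hK hK0 hfK
  let g : sphere (0 : E) 1 × Ioi (0 : ℝ) → ℝ := fun p => f ((p.2 : ℝ) • (p.1 : E))
  have hg : ∀ x : ({0}ᶜ : Set E), g (homeomorphUnitSphereProd E x) = f x := by
    intro x
    have hx : ‖(x : E)‖ ≠ 0 := norm_ne_zero_iff.2 x.2
    have : ((homeomorphUnitSphereProd E x).2 : ℝ) • ((homeomorphUnitSphereProd E x).1 : E) = x := by
      simp [smul_smul, hx]
    simp only [g, this]
  have hmp := μ.measurePreserving_homeomorphUnitSphereProd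
  have hemb := Homeomorph.measurableEmbedding (homeomorphUnitSphereProd E)
  have h1 : ∫ y in {0}ᶜ, f y ∂μ
      = ∫ p, g p ∂(μ.toSphere.prod (Measure.volumeIoiPow (Module.finrank ℝ E - 1))) := by
    rw [← hmp.integral_comp hemb g, ← integral_subtype_comap (measurableSet_singleton _).compl f]
    exact integral_congr_ae (Eventually.of_forall fun x => (hg x).symm)
  have hgint : Integrable g (μ.toSphere.prod (Measure.volumeIoiPow (Module.finrank ℝ E - 1))) := by
    rw [← hmp.integrable_comp_emb hemb]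
    have : g ∘ (homeomorphUnitSphereProd E) = fun x : ({0}ᶜ : Set E) => f x := by
      funext x; exact hg x
    rw [this]
    exact (integrableOn_iff_comap_subtypeVal (measurableSet_singleton _).compl).1 hfint
  rw [h1, integral_prod g hgint, ← integral_const_mul]
  refine integral_congr_ae (Eventually.of_forall fun u => ?_)
  have hu0 : (u : E) ≠ 0 := ne_zero_of_mem_unit_sphere u
  have hhu : 0 < h u := hp u hu0
  have hn : 0 < Module.finrank ℝ E := Module.finrank_pos
  have h2 : ∫ r, g (u, r) ∂(Measure.volumeIoiPow (Module.finrank ℝ E - 1))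
      = ∫ r in Ioi (0 : ℝ), h u * ((ψ (h u * r) / (h u * r)) * G u) := by
    simp only [Measure.volumeIoiPow, ENNReal.ofReal]
    rw [integral_withDensity_eq_integral_smul]
    · rw [integral_subtype_comap measurableSet_Ioi
        fun r => Real.toNNReal (r ^ (Module.finrank ℝ E - 1)) • f (r • (u : E))]
      refine setIntegral_congr_fun measurableSet_Ioi fun r hr => ?_
      have hr : 0 < r := hr
      simp only [NNReal.smul_def, Real.coe_toNNReal _ (pow_nonneg hr.le _), smul_eq_mul, hfdef]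
      rw [hh r hr, ← hGh r hr u hu0, mul_comm r (h u)]
      have : r ^ Module.finrank ℝ E = r ^ (Module.finrank ℝ E - 1) * r := by
        rw [← pow_succ, Nat.sub_add_cancel hn]
      rw [this]
      field_simp
    · exact (measurable_subtype_coe.pow_const _).real_toNNReal
  beta_reduce
  rw [h2, integral_const_mul, integral_mul_const]
  have h3 := integral_comp_mul_left_Ioi (fun t => ψ t / t) 0 hhu
  rw [h3, mul_zero, smul_eq_mul]
  field_simp

end Pool.Agent.Helper14.Cov
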