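import Pool.Agent.Helper14.Cov.Homog
import Pool.Agent.Helper14.Cov.Piola
import Pool.Agent.Helper14.Cov.Polar

/-! The integral identity behind Minkowski's uniqueness theorem (helper file for MP_fb1ba4_gt). -/

open MeasureTheory Set Filter Topology Matrix

namespace Pool.Agent.Helper14.Cov

open Pool.Agent.Helper77.Cov

variable {n : ℕ} {h g : V n → ℝ}

/-- Riesz map in coordinates. -/
noncomputable def Gm (n : ℕ) : (V n →L[ℝ] ℝ) →L[ℝ] V n :=
  ((PiLp.continuousLinearEquiv 2 ℝ (fun _ : Fin n => ℝ)).symm : (Fin n → ℝ) →L[ℝ] V n) ∘L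
    ContinuousLinearMap.pi fun i => ContinuousLinearMap.apply ℝ ℝ (EuclideanSpace.single i 1)

@[simp] theorem Gm_apply (ℓ : V n →L[ℝ] ℝ) (i : Fin n) :
    (Gm n ℓ) i = ℓ (EuclideanSpace.single i 1) := rfl

theorem inner_Gm (ℓ : V n →L[ℝ] ℝ) (v : V n) : inner ℝ (Gm n ℓ) v = ℓ v := by
  rw [apply_eq_dot ℓ v]
  simp only [PiLp.inner_apply, dotProduct, Gm_apply]
  exact Finset.sum_congr rfl fun i _ => by simp [mul_comm]

/-- the map `Φ = ∇(h²/2)` -/
noncomputable def Ph (h : V n → ℝ) (y : V n) : V n := h y • Gm n (fderiv ℝ h y)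

/-- its derivative -/
noncomputable def Ph' (h : V n → ℝ) (y : V n) : V n →L[ℝ] V n :=
  h y • (Gm n ∘L fderiv ℝ (fderiv ℝ h) y) + (fderiv ℝ h y).smulRight (Gm n (fderiv ℝ h y))

theorem Ph_hasFDerivAt (H : Adm h) {y : V n} (hy : y ≠ 0) : HasFDerivAt (Ph h) (Ph' h y) y := by
  have h1 : HasFDerivAt (fun y => Gm n (fderiv ℝ h y)) (Gm n ∘L fderiv ℝ (fderiv ℝ h) y) y :=
    (Gm n).hasFDerivAt.comp y (H.hf2 hy)
  exact (H.hf hy).smul h1

theorem Ph'_cont (H : Adm h) : ContinuousOn (Ph' h) {0}ᶜ := by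
  unfold Ph'
  refine ContinuousOn.add (H.cont.smul (continuousOn_const.clm_comp H.cont2)) ?_
  exact ((ContinuousLinearMap.smulRightL ℝ (V n) (V n)).continuous.comp_continuousOn H.cont1).clm_apply
    ((Gm n).continuous.comp_continuousOn H.cont1)

/-- the standard basis -/
noncomputable abbrev sb (n : ℕ) : Module.Basis (Fin n) ℝ (V n) :=
  (EuclideanSpace.basisFun (Fin n) ℝ).toBasis

theorem toMatrix_Ph' (H : Adm h) {y : V n} (hy : y ≠ 0) :
    LinearMap.toMatrix (sb n) (sb n) (Ph' h y : V n →ₗ[ℝ] V n) = SS (h y) h h y := by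
  ext i j
  rw [LinearMap.toMatrix_apply]
  simp only [Ph', SS, gr, hess, Matrix.add_apply, Matrix.smul_apply, Matrix.of_apply,
    Matrix.vecMulVec_apply]
  simp only [sb, OrthonormalBasis.coe_toBasis, EuclideanSpace.basisFun_apply,
    OrthonormalBasis.coe_toBasis_repr_apply, EuclideanSpace.basisFun_repr]
  simp only [ContinuousLinearMap.coe_coe, _root_.add_apply, _root_.smul_apply,
    ContinuousLinearMap.comp_apply, ContinuousLinearMap.smulRight_apply, PiLp.add_apply,
    PiLp.smul_apply, Gm_apply, smul_eq_mul]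
  rw [H.symm hy]
  ring

/-- the vector field `W = F(h) ∇g` -/
noncomputable def Wf (F : ℝ → ℝ) (h g : V n → ℝ) (y : V n) : V n := F (h y) • Gm n (fderiv ℝ g y)

/-- its derivative -/
noncomputable def Wf' (F F' : ℝ → ℝ) (h g : V n → ℝ) (y : V n) : V n →L[ℝ] V n :=
  F (h y) • (Gm n ∘L fderiv ℝ (fderiv ℝ g) y) +
    (F' (h y) • fderiv ℝ h y).smulRight (Gm n (fderiv ℝ g y))

theorem Wf_hasFDerivAt (H : Adm h) (Hg : Adm g) {F F' : ℝ → ℝ} (hF : ∀ t, HasDerivAt F (F' t) t)
    {y : V n} (hy : y ≠ 0) : HasFDerivAt (Wf F h g) (Wf' F F' h g y) y := by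
  have h1 : HasFDerivAt (fun y => Gm n (fderiv ℝ g y)) (Gm n ∘L fderiv ℝ (fderiv ℝ g) y) y :=
    (Gm n).hasFDerivAt.comp y (Hg.hf2 hy)
  have h2 : HasFDerivAt (fun y => F (h y)) (F' (h y) • fderiv ℝ h y) y :=
    (hF (h y)).comp_hasFDerivAt y (H.hf hy)
  exact h2.smul h1

theorem Wf'_cont (H : Adm h) (Hg : Adm g) {F F' : ℝ → ℝ} (hF : Continuous F)
    (hF' : Continuous F') : ContinuousOn (Wf' F F' h g) {0}ᶜ := by
  unfold Wf'
  refine ContinuousOn.add ((hF.comp_continuousOn H.cont).smul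
    (continuousOn_const.clm_comp Hg.cont2)) ?_
  exact ((ContinuousLinearMap.smulRightL ℝ (V n) (V n)).continuous.comp_continuousOn
    ((hF'.comp_continuousOn H.cont).smul H.cont1)).clm_apply
    ((Gm n).continuous.comp_continuousOn Hg.cont1)

theorem toMatrix_Wf' (Hg : Adm g) {F F' : ℝ → ℝ} {y : V n} (hy : y ≠ 0) :
    LinearMap.toMatrix (sb n) (sb n) (Wf' F F' h g y : V n →ₗ[ℝ] V n) =
      F (h y) • hess g y + F' (h y) • vecMulVec (gr g y) (gr h y) := by
  ext i j
  rw [LinearMap.toMatrix_apply]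
  simp only [Wf', gr, hess, Matrix.add_apply, Matrix.smul_apply, Matrix.of_apply,
    Matrix.vecMulVec_apply]
  simp only [sb, OrthonormalBasis.coe_toBasis, EuclideanSpace.basisFun_apply,
    OrthonormalBasis.coe_toBasis_repr_apply, EuclideanSpace.basisFun_repr]
  simp only [ContinuousLinearMap.coe_coe, _root_.add_apply, _root_.smul_apply,
    ContinuousLinearMap.comp_apply, ContinuousLinearMap.smulRight_apply, PiLp.add_apply,
    PiLp.smul_apply, Gm_apply, smul_eq_mul]
  rw [Hg.symm hy]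
  ring

theorem det_Ph' (H : Adm h) {y : V n} (hy : y ≠ 0) : (Ph' h y).det = (SS (h y) h h y).det := by
  rw [← toMatrix_Ph' H hy, LinearMap.det_toMatrix]

theorem inner_Ph' (H : Adm h) {y : V n} (hy : y ≠ 0) {v : V n} (hv : v ≠ 0) :
    0 < inner ℝ (Ph' h y v) v := by
  have h1 := (SS_posDef H H hy (H.pos y hy)).dotProduct_mulVec_pos (Adm.ofLp_ne hv)
  have h2 : inner ℝ (Ph' h y v) v
      = h y * fderiv ℝ (fderiv ℝ h) y v v + fderiv ℝ h y v * fderiv ℝ h y v := by
    simp only [Ph', _root_.add_apply, _root_.smul_apply,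
      ContinuousLinearMap.comp_apply, ContinuousLinearMap.smulRight_apply, inner_add_left,
      inner_smul_left, inner_Gm]
    simp
  rw [h2]
  have h3 : star (v : Fin n → ℝ) ⬝ᵥ (SS (h y) h h y *ᵥ (v : Fin n → ℝ))
      = h y * fderiv ℝ (fderiv ℝ h) y v v + fderiv ℝ h y v * fderiv ℝ h y v := by
    rw [star_trivial, SS, Matrix.add_mulVec, dotProduct_add, Matrix.smul_mulVec, dotProduct_smul,
      Matrix.vecMulVec_mulVec, dot_hess, op_smul_eq_smul, dotProduct_smul, gr_dot, dotProduct_comm,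
      gr_dot]
    simp
  rw [← h3]
  exact h1

theorem Ph_hom (H : Adm h) {t : ℝ} (ht : 0 < t) {y : V n} (hy : y ≠ 0) :
    Ph h (t • y) = t • Ph h y := by
  unfold Ph
  rw [H.hom t ht, H.fderiv_hom ht hy, smul_smul]

theorem inner_Ph_self (H : Adm h) {y : V n} (hy : y ≠ 0) : inner ℝ (Ph h y) y = h y ^ 2 := by
  unfold Ph
  rw [inner_smul_left, inner_Gm, H.euler hy]
  simp [sq]

theorem Ph_injOn (H : Adm h) : InjOn (Ph h) {0}ᶜ := by
  intro y hy z hz hyz
  have hy0 : y ≠ 0 := hy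
  have hz0 : z ≠ 0 := hz
  by_contra hne
  have hd : z - y ≠ 0 := sub_ne_zero.2 (Ne.symm hne)
  by_cases hseg : ∀ t ∈ Icc (0 : ℝ) 1, y + t • (z - y) ≠ 0
  · have hmono : StrictMonoOn (fun t : ℝ => inner ℝ (Ph h (y + t • (z - y))) (z - y)) (Icc 0 1) := by
      have hder : ∀ t ∈ Icc (0 : ℝ) 1, HasDerivAt (fun t : ℝ => inner ℝ (Ph h (y + t • (z - y))) (z - y))
          (inner ℝ (Ph' h (y + t • (z - y)) (z - y)) (z - y)) t := by
        intro t ht
        have h1 : HasDerivAt (fun t : ℝ => y + t • (z - y)) (z - y) t := by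
          simpa using ((hasDerivAt_id t).smul_const (z - y)).const_add y
        have h2 := (Ph_hasFDerivAt H (hseg t ht)).comp_hasDerivAt t h1
        have h3 := h2.inner ℝ (hasDerivAt_const t (z - y))
        simpa using h3
      refine strictMonoOn_of_deriv_pos (convex_Icc 0 1) ?_ ?_
      · intro t ht
        exact (hder t ht).continuousAt.continuousWithinAt
      · intro t ht
        rw [interior_Icc] at ht
        rw [(hder t (Ioo_subset_Icc_self ht)).deriv]
        exact inner_Ph' H (hseg t (Ioo_subset_Icc_self ht)) hd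
    have := hmono (left_mem_Icc.2 zero_le_one) (right_mem_Icc.2 zero_le_one) zero_lt_one
    simp only [zero_smul, add_zero, one_smul, add_sub_cancel] at this
    rw [hyz] at this
    exact lt_irrefl _ this
  · push Not at hseg
    obtain ⟨t, ht, ht0⟩ := hseg
    have h1 : (1 - t) • y = -(t • z) := by
      have : y + t • (z - y) = (1 - t) • y + t • z := by
        rw [smul_sub, sub_smul, one_smul]; abel
      rw [this] at ht0
      exact eq_neg_of_add_eq_zero_left ht0
    have ht0' : t ≠ 0 := by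
      rintro rfl
      simp at h1
      exact hy0 h1
    have ht1 : t ≠ 1 := by
      rintro rfl
      simp at h1
      exact hz0 h1
    have htpos : 0 < t := lt_of_le_of_ne ht.1 (Ne.symm ht0')
    have ht1pos : 0 < 1 - t := sub_pos.2 (lt_of_le_of_ne ht.2 ht1)
    -- pair with `y`
    have h2 : inner ℝ (Ph h y) ((1 - t) • y) = (1 - t) * h y ^ 2 := by
      rw [inner_smul_right, inner_Ph_self H hy0]
    have h3 : inner ℝ (Ph h z) ((1 - t) • y) = -(t * h z ^ 2) := by
      rw [h1, inner_neg_right, inner_smul_right, inner_Ph_self H hz0]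
    rw [hyz, h3] at h2
    have h4 := H.pos y hy0
    have h5 := H.pos z hz0
    nlinarith [mul_pos ht1pos (pow_pos h4 2), mul_pos htpos (pow_pos h5 2)]

/-- the integral identity, matrix form -/
theorem identity_raw (H : Adm h) (Hg : Adm g) {F F' : ℝ → ℝ} (hF : ∀ t, HasDerivAt F (F' t) t)
    (hF' : Continuous F') {a b : ℝ} (ha : 0 < a) (hFs : ∀ t, t ∉ Icc a b → F t = 0) :
    ∫ y in ({0}ᶜ : Set (V n)), (SS (h y) h h y).det *
      (F (h y) * (hess g y * (SS (h y) h h y)⁻¹).trace + F' (h y) * (g y / h y)) = 0 := by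
  have hFc : Continuous F := continuous_iff_continuousAt.2 fun t => (hF t).continuousAt
  obtain ⟨K, hK, hK0, hKm⟩ := exists_compact_annulus H.cont H.hom H.pos (b := b) ha
  have hmain := piola (volume : Measure (V n)) isOpen_compl_singleton (Φ := Ph h) (Φ' := Ph' h)
    (fun y hy => Ph_hasFDerivAt H hy) (Ph'_cont H) (Ph_injOn H)
    (fun y hy => by
      rw [det_Ph' H hy]; exact (SS_posDef H H hy (H.pos y hy)).det_pos.ne')
    (W := Wf F h g) (W' := Wf' F F' h g) (fun y hy => Wf_hasFDerivAt H Hg hF hy)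
    (Wf'_cont H Hg hFc hF') hK hK0
    (fun y hy hyK => by
      have : h y ∉ Icc a b := fun hh' => hyK (hKm y hy hh')
      simp [Wf, hFs _ this])
  rw [← hmain]
  refine setIntegral_congr_fun (measurableSet_singleton _).compl fun y hy => ?_
  have hy0 : y ≠ 0 := hy
  have hpd := SS_posDef H H hy0 (H.pos y hy0)
  have hdpos := hpd.det_pos
  have hdet : (Ph' h y).det ≠ 0 := by rw [det_Ph' H hy0]; exact hdpos.ne'
  have hinv : LinearMap.toMatrix (sb n) (sb n) ((Ph' h y).inverse : V n →ₗ[ℝ] V n)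
      = (SS (h y) h h y)⁻¹ := by
    symm
    apply Matrix.inv_eq_right_inv
    rw [← toMatrix_Ph' H hy0, ← LinearMap.toMatrix_comp]
    have : (Ph' h y : V n →ₗ[ℝ] V n) ∘ₗ ((Ph' h y).inverse : V n →ₗ[ℝ] V n) = LinearMap.id := by
      ext1 v
      have he : ((ContinuousLinearMap.toContinuousLinearEquivOfDetNeZero (Ph' h y) hdet :
        V n ≃L[ℝ] V n) : V n →L[ℝ] V n) = Ph' h y := by
        ext x; simp
      have h2 : (Ph' h y) ((Ph' h y).inverse v) = v := by
        rw [← he, ContinuousLinearMap.inverse_equiv]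
        exact (ContinuousLinearMap.toContinuousLinearEquivOfDetNeZero (Ph' h y) hdet).apply_symm_apply v
      exact h2
    rw [this, LinearMap.toMatrix_id]
  have htr : LinearMap.trace ℝ (V n)
      (((Wf' F F' h g y) ∘L (Ph' h y).inverse : V n →L[ℝ] V n) : V n →ₗ[ℝ] V n)
      = F (h y) * (hess g y * (SS (h y) h h y)⁻¹).trace + F' (h y) * (g y / h y) := by
    have hcomp : (((Wf' F F' h g y) ∘L (Ph' h y).inverse : V n →L[ℝ] V n) : V n →ₗ[ℝ] V n)
        = (Wf' F F' h g y : V n →ₗ[ℝ] V n) ∘ₗ ((Ph' h y).inverse : V n →ₗ[ℝ] V n) := rfl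
    rw [hcomp, LinearMap.trace_eq_matrix_trace ℝ (sb n),
      LinearMap.toMatrix_comp (sb n) (sb n) (sb n), hinv, toMatrix_Wf' Hg hy0, Matrix.add_mul,
      Matrix.trace_add, Matrix.smul_mul, Matrix.smul_mul, Matrix.trace_smul, Matrix.trace_smul]
    have h1 := trace_formulas (H.hess_symm hy0) (H.hess_ker hy0) (c := h y) (ν := gr h y)
      (by rw [H.gr_dot_self hy0]; exact (H.pos y hy0).ne') hpd.isUnit (gr g y)
    rw [H.gr_dot_self hy0, Hg.gr_dot_self hy0] at h1
    have h2 : (SS (h y) h h y) = h y • hess h y + vecMulVec (gr h y) (gr h y) := rfl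
    rw [← h2] at h1
    rw [h1]
    simp
  rw [htr, det_Ph' H hy0, abs_of_pos hdpos]

end Pool.Agent.Helper14.Cov
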