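import Pool.Agent.Helper14.Cov.Ident

/-! Minkowski's uniqueness theorem for `C²` support functions (Module D for MP_fb1ba4_gt). -/

open MeasureTheory Set Filter Topology Matrix Metric

namespace Pool.Agent.Helper14.Cov

open Pool.Agent.Helper77.Cov

variable {n : ℕ} {h g : V n → ℝ}

/-- the density `a` of the surface area measure -/
noncomputable def aa (h : V n → ℝ) (y : V n) : ℝ :=
  (hess h y + vecMulVec (y : Fin n → ℝ) (y : Fin n → ℝ)).det /
    ((y : Fin n → ℝ) ⬝ᵥ (y : Fin n → ℝ)) ^ 2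

theorem dot_self_pos {y : V n} (hy : y ≠ 0) : 0 < (y : Fin n → ℝ) ⬝ᵥ (y : Fin n → ℝ) := by
  have h1 : (y : Fin n → ℝ) ⬝ᵥ (y : Fin n → ℝ) ≠ 0 := fun h0 =>
    Adm.ofLp_ne hy (dotProduct_self_eq_zero.1 h0)
  have h2 : 0 ≤ (y : Fin n → ℝ) ⬝ᵥ (y : Fin n → ℝ) :=
    Finset.sum_nonneg fun i _ => mul_self_nonneg _
  exact lt_of_le_of_ne h2 (Ne.symm h1)

theorem aa_pos (H : Adm h) {y : V n} (hy : y ≠ 0) : 0 < aa h y := by
  have h1 := posDef_add_rank_one (H.hess_symm hy) (H.hess_ker hy) (H.hess_pos hy) one_pos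
    (ν := (y : Fin n → ℝ)) (dot_self_pos hy).ne'
  rw [one_smul] at h1
  exact div_pos h1.det_pos (pow_pos (dot_self_pos hy) 2)

theorem det_SS (H : Adm h) (Hg : Adm g) {y : V n} (hy : y ≠ 0) :
    h y * (SS (h y) g h y).det = h y ^ n * h y ^ 2 * aa g y := by
  have h1 := det_add_rank_one (Hg.hess_symm hy) (Hg.hess_ker hy) (Adm.ofLp_ne hy) (H.pos y hy)
    (gr h y)
  rw [Fintype.card_fin, H.gr_dot_self hy] at h1
  unfold SS aa
  rw [h1]
  ring

theorem det_SS' (H : Adm h) {y : V n} (hy : y ≠ 0) :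
    (SS (h y) h h y).det = h y ^ (n + 1) * aa h y := by
  have h1 := det_SS H H hy
  have h2 := H.pos y hy
  have h3 : h y * (SS (h y) h h y).det = h y * (h y ^ (n + 1) * aa h y) := by
    rw [h1]; ring
  exact mul_left_cancel₀ h2.ne' h3

theorem aa_hom (H : Adm h) {t : ℝ} (ht : 0 < t) {y : V n} (hy : y ≠ 0) :
    t ^ (n + 1) * aa h (t • y) = aa h y := by
  have h1 := det_add_rank_one (H.hess_symm hy) (H.hess_ker hy) (Adm.ofLp_ne hy) (inv_pos.2 ht)
    (t • (y : Fin n → ℝ))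
  rw [Fintype.card_fin] at h1
  have h2 : hess h (t • y) = t⁻¹ • hess h y := by
    rw [← H.hess_hom ht hy, smul_smul, inv_mul_cancel₀ ht.ne', one_smul]
  have hs := dot_self_pos hy
  unfold aa
  rw [h2, WithLp.ofLp_smul]
  have h3 : (t⁻¹ • hess h y + vecMulVec (t • (y : Fin n → ℝ)) (t • (y : Fin n → ℝ))).det
      = t * (t⁻¹ ^ n * t ^ 2 *
        (hess h y + vecMulVec (y : Fin n → ℝ) (y : Fin n → ℝ)).det) := by
    have h4 : (t • (y : Fin n → ℝ) ⬝ᵥ (y : Fin n → ℝ)) ^ 2 /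
        ((y : Fin n → ℝ) ⬝ᵥ (y : Fin n → ℝ)) ^ 2 = t ^ 2 := by
      rw [smul_dotProduct, smul_eq_mul]
      field_simp
    rw [h4] at h1
    rw [← h1, ← mul_assoc, mul_inv_cancel₀ ht.ne', one_mul]
  rw [h3, smul_dotProduct, dotProduct_smul, smul_eq_mul, smul_eq_mul]
  have h5 : t ^ n * t⁻¹ ^ n = 1 := by
    rw [← mul_pow, mul_inv_cancel₀ ht.ne', one_pow]
  have h6 : t ^ (n + 1) * (t * (t⁻¹ ^ n * t ^ 2 *
      (hess h y + vecMulVec (y : Fin n → ℝ) (y : Fin n → ℝ)).det) /
      (t * (t * (y : Fin n → ℝ) ⬝ᵥ (y : Fin n → ℝ))) ^ 2)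
      = (t ^ n * t⁻¹ ^ n) * (t ^ 4 *
      (hess h y + vecMulVec (y : Fin n → ℝ) (y : Fin n → ℝ)).det /
      (t * (t * (y : Fin n → ℝ) ⬝ᵥ (y : Fin n → ℝ))) ^ 2) := by ring
  rw [h6, h5, one_mul]
  field_simp

theorem ofLp_cont : ContinuousOn (fun y : V n => (y : Fin n → ℝ)) {0}ᶜ :=
  (PiLp.continuous_ofLp 2 _).continuousOn

theorem aa_cont (H : Adm h) : ContinuousOn (aa h) {0}ᶜ := by
  unfold aa
  refine ContinuousOn.div ?_ ?_ ?_
  · have : ContinuousOn (fun y : V n => hess h y + vecMulVec (y : Fin n → ℝ) (y : Fin n → ℝ)) {0}ᶜ := by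
      refine H.hess_cont.add ?_
      exact (Continuous.matrix_vecMulVec (PiLp.continuous_ofLp 2 _)
        (PiLp.continuous_ofLp 2 _)).continuousOn
    exact (continuous_id.matrix_det).comp_continuousOn this
  · exact (((PiLp.continuous_ofLp 2 _).dotProduct (PiLp.continuous_ofLp 2 _)).pow 2).continuousOn
  · intro y hy
    exact (pow_pos (dot_self_pos hy) 2).ne'

/-- `τ` -/
noncomputable def ta (h g : V n → ℝ) (y : V n) : ℝ :=
  h y * (hess g y * (SS (h y) h h y)⁻¹).trace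

theorem SS_cont (H : Adm h) : ContinuousOn (fun y => SS (h y) h h y) {0}ᶜ := by
  unfold SS
  refine (H.cont.smul H.hess_cont).add ?_
  have : Continuous fun p : (Fin n → ℝ) => vecMulVec p p :=
    Continuous.matrix_vecMulVec continuous_id continuous_id
  exact this.comp_continuousOn H.gr_cont

theorem ta_cont (H : Adm h) (Hg : Adm g) : ContinuousOn (ta h g) {0}ᶜ := by
  have h1 : ContinuousOn (fun y => (SS (h y) h h y)⁻¹) {0}ᶜ := by
    have h2 : (fun y => (SS (h y) h h y)⁻¹)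
        = fun y => ((SS (h y) h h y).det)⁻¹ • (SS (h y) h h y).adjugate := by
      funext y
      rw [Matrix.inv_def, Ring.inverse_eq_inv']
    rw [h2]
    have hd : Continuous fun M : Matrix (Fin n) (Fin n) ℝ => M.det := continuous_id.matrix_det
    have hd1 : ContinuousOn (fun y => (SS (h y) h h y).det) {0}ᶜ :=
      hd.comp_continuousOn (SS_cont H)
    have ha : Continuous fun M : Matrix (Fin n) (Fin n) ℝ => M.adjugate :=
      continuous_id.matrix_adjugate
    have ha1 : ContinuousOn (fun y => (SS (h y) h h y).adjugate) {0}ᶜ :=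
      ha.comp_continuousOn (SS_cont H)
    exact (hd1.inv₀ fun y hy => (SS_posDef H H hy (H.pos y hy)).det_pos.ne').smul ha1
  unfold ta
  refine H.cont.mul ?_
  have h3 : ContinuousOn (fun y => hess g y * (SS (h y) h h y)⁻¹) {0}ᶜ := by
    have h4 : Continuous fun p : Matrix (Fin n) (Fin n) ℝ × Matrix (Fin n) (Fin n) ℝ => p.1 * p.2 :=
      continuous_fst.matrix_mul continuous_snd
    exact h4.comp_continuousOn (Hg.hess_cont.prodMk h1)
  exact (continuous_id.matrix_trace).comp_continuousOn h3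

theorem ta_hom (H : Adm h) (Hg : Adm g) {t : ℝ} (ht : 0 < t) {y : V n} (hy : y ≠ 0) :
    ta h g (t • y) = ta h g y := by
  have h1 : SS (h (t • y)) h h (t • y) = SS (h y) h h y := by
    unfold SS
    rw [H.gr_hom ht hy, H.hom t ht, mul_comm, mul_smul, H.hess_hom ht hy]
  unfold ta
  rw [h1, H.hom t ht, ← Hg.hess_hom ht hy, Matrix.smul_mul, Matrix.trace_smul, smul_eq_mul]
  ring

theorem ta_ge (H : Adm h) (Hg : Adm g) {y : V n} (hy : y ≠ 0)
    (hdet : (SS (h y) g h y).det = (SS (h y) h h y).det) :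
    (n : ℝ) - 1 ≤ ta h g y ∧ (ta h g y = n - 1 → hess g y = hess h y) := by
  have hpos := H.pos y hy
  have hS := SS_posDef H H hy hpos
  have hS' := SS_posDef Hg H hy hpos
  have h1 := trace_mul_inv_ge hS hS' hdet
  have h2 := trace_formulas (H.hess_symm hy) (H.hess_ker hy) (c := h y) (ν := gr h y)
    (by rw [H.gr_dot_self hy]; exact hpos.ne') hS.isUnit (gr h y)
  have h3 : (SS (h y) g h y * (SS (h y) h h y)⁻¹).trace = ta h g y + 1 := by
    conv_lhs => rw [SS]
    rw [Matrix.add_mul, Matrix.trace_add, Matrix.smul_mul, Matrix.trace_smul, smul_eq_mul]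
    have h4 : (vecMulVec (gr h y) (gr h y) * (SS (h y) h h y)⁻¹).trace = 1 := by
      have h5 : (SS (h y) h h y) = h y • hess h y + vecMulVec (gr h y) (gr h y) := rfl
      rw [h5, h2, H.gr_dot_self hy]
      field_simp
    rw [h4, ta]
  rw [h3, Fintype.card_fin] at h1
  refine ⟨by linarith [h1.1], fun h4 => ?_⟩
  have h5 := h1.2 (by rw [h4]; ring)
  unfold SS at h5
  have h6 : h y • hess g y = h y • hess h y := add_right_cancel h5
  exact smul_right_injective _ hpos.ne' h6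

/-- one-dimensional integrals -/
theorem exists_profile (m : ℕ) : ∃ (F F' : ℝ → ℝ) (a b : ℝ), 0 < a ∧ (∀ t, HasDerivAt F (F' t) t) ∧
    Continuous F' ∧ (∀ t, t ∉ Icc a b → F t = 0) ∧ (∀ t, t ∉ Icc a b → F' t = 0) ∧
    0 < ∫ t in Ioi (0 : ℝ), F t * t ^ m ∧
    ∫ t in Ioi (0 : ℝ), F' t * t ^ (m + 1) = -((m + 1 : ℕ) : ℝ) * ∫ t in Ioi (0 : ℝ), F t * t ^ m := by
  let B : ContDiffBump (2 : ℝ) := ⟨1 / 2, 1, by norm_num, by norm_num⟩
  have hB : ContDiff ℝ 1 B := B.contDiff
  have hder : ∀ t, HasDerivAt B (deriv B t) t := fun t =>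
    ((hB.differentiable (by norm_num)) t).hasDerivAt
  have hsupp : ∀ t, t ∉ Icc (1 : ℝ) 3 → B t = 0 := by
    intro t ht
    by_contra hne
    have h1 : t ∈ Function.support B := hne
    rw [B.support_eq, mem_ball, Real.dist_eq] at h1
    apply ht
    have : |t - 2| < 1 := h1
    rw [abs_lt] at this
    constructor <;> linarith [this.1, this.2]
  have hsupp' : ∀ t, t ∉ Icc (1 : ℝ) 3 → deriv B t = 0 := by
    intro t ht
    have h1 : (B : ℝ → ℝ) =ᶠ[𝓝 t] fun _ => 0 := by
      filter_upwards [isClosed_Icc.isOpen_compl.mem_nhds ht] with s hs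
      exact hsupp s hs
    rw [h1.deriv_eq]
    simp
  have hcs : HasCompactSupport (B : ℝ → ℝ) := B.hasCompactSupport
  have hBc : Continuous (B : ℝ → ℝ) := B.continuous
  have hdc : Continuous (deriv B) := hB.continuous_deriv (by norm_num)
  have hI : ∀ (f : ℝ → ℝ), (∀ t, t ∉ Icc (1 : ℝ) 3 → f t = 0) →
      ∫ t in Ioi (0 : ℝ), f t = ∫ t, f t := by
    intro f hf
    refine setIntegral_eq_integral_of_forall_compl_eq_zero ?_
    intro t ht
    apply hf
    intro ht'
    exact ht (lt_of_lt_of_le zero_lt_one ht'.1)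
  have hcs1 : HasCompactSupport (fun t : ℝ => B t * t ^ m) := hcs.mul_right
  have hcs2 : HasCompactSupport (fun t : ℝ => deriv B t * t ^ (m + 1)) := (hcs.deriv).mul_right
  have hcs3 : HasCompactSupport (fun t : ℝ => B t * t ^ (m + 1)) := hcs.mul_right
  have hc1 : Continuous (fun t : ℝ => B t * t ^ m) := hBc.mul (continuous_pow m)
  have hc2 : Continuous (fun t : ℝ => deriv B t * t ^ (m + 1)) := hdc.mul (continuous_pow _)
  refine ⟨B, deriv B, 1, 3, one_pos, hder, hdc, hsupp, hsupp', ?_, ?_⟩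
  · rw [hI _ (fun t ht => by rw [hsupp t ht, zero_mul])]
    refine hc1.integral_pos_of_hasCompactSupport_nonneg_nonzero hcs1 ?_ (x := 2) ?_
    · intro t
      by_cases ht : t ∈ Icc (1 : ℝ) 3
      · have : 0 ≤ t := zero_le_one.trans ht.1
        have := B.nonneg (x := t)
        simp only [Pi.zero_apply]
        positivity
      · simp [hsupp t ht]
    · have : B 2 = 1 := B.one_of_mem_closedBall (by simp [B])
      rw [this]
      positivity
  · rw [hI (fun t => deriv B t * t ^ (m + 1)) (fun t ht => by rw [hsupp' t ht, zero_mul]),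
      hI (fun t => B t * t ^ m) (fun t ht => by rw [hsupp t ht, zero_mul])]
    have h1 : ∀ t : ℝ, HasDerivAt (fun t : ℝ => B t * t ^ (m + 1))
        (deriv B t * t ^ (m + 1) + B t * (((m + 1 : ℕ) : ℝ) * t ^ m)) t := by
      intro t
      have := (hder t).mul (hasDerivAt_pow (m + 1) t)
      exact this
    have hc4 : Continuous (fun t : ℝ => B t * (((m + 1 : ℕ) : ℝ) * t ^ m)) := by fun_prop
    have hcs4 : HasCompactSupport (fun t : ℝ => B t * (((m + 1 : ℕ) : ℝ) * t ^ m)) := hcs.mul_right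
    have hc3 : Continuous (fun t : ℝ => B t * t ^ (m + 1)) := hBc.mul (continuous_pow _)
    have h2 : ∫ t : ℝ, (deriv B t * t ^ (m + 1) + B t * (((m + 1 : ℕ) : ℝ) * t ^ m)) = 0 :=
      integral_eq_zero_of_hasDerivAt_of_integrable h1
        ((hc2.integrable_of_hasCompactSupport hcs2).add (hc4.integrable_of_hasCompactSupport hcs4))
        (hc3.integrable_of_hasCompactSupport hcs3)
    rw [integral_add (hc2.integrable_of_hasCompactSupport hcs2)
      (hc4.integrable_of_hasCompactSupport hcs4)] at h2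
    have h3 : ∫ t : ℝ, B t * (((m + 1 : ℕ) : ℝ) * t ^ m)
        = ((m + 1 : ℕ) : ℝ) * ∫ t : ℝ, B t * t ^ m := by
      rw [← integral_const_mul]
      congr 1
      funext t
      ring
    rw [h3] at h2
    linarith

theorem ndim (m : ℕ) : Module.finrank ℝ (V (m + 2)) = m + 2 := by simp

/-- The integral identity on the sphere. -/
theorem sphere_identity {m : ℕ} {h g : V (m + 2) → ℝ} (H : Adm h) (Hg : Adm g) :
    ∫ u : sphere (0 : V (m + 2)) 1, ta h g u * (h u * aa h u)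
        ∂((volume : Measure (V (m + 2))).toSphere) =
      ((m + 1 : ℕ) : ℝ) * ∫ u : sphere (0 : V (m + 2)) 1, g u * aa h u
        ∂((volume : Measure (V (m + 2))).toSphere) := by
  obtain ⟨F, F', a, b, ha, hF, hF'c, hFs, hF's, hI1, hI2⟩ := exists_profile m
  have hFc : Continuous F := continuous_iff_continuousAt.2 fun t => (hF t).continuousAt
  have hid := identity_raw H Hg hF hF'c ha hFs
  obtain ⟨K, hK, hK0, hKm⟩ := exists_compact_annulus H.cont H.hom H.pos (b := b) ha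
  have hnt : Nontrivial (V (m + 2)) := by
    apply Module.nontrivial_of_finrank_pos (R := ℝ)
    rw [ndim]; omega
  set Gt : V (m + 2) → ℝ := fun y => ta h g y * (h y * aa h y) with hGt
  set Gg : V (m + 2) → ℝ := fun y => g y * aa h y with hGg
  have hGtc : ContinuousOn Gt {0}ᶜ := (ta_cont H Hg).mul (H.cont.mul (aa_cont H))
  have hGgc : ContinuousOn Gg {0}ᶜ := Hg.cont.mul (aa_cont H)
  have hGth : ∀ t : ℝ, 0 < t → ∀ y, y ≠ 0 →
      t ^ (Module.finrank ℝ (V (m + 2))) * Gt (t • y) = Gt y := by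
    intro t ht y hy
    simp only [hGt, ndim]
    rw [ta_hom H Hg ht hy, H.hom t ht, ← aa_hom H ht hy]
    ring
  have hGgh : ∀ t : ℝ, 0 < t → ∀ y, y ≠ 0 →
      t ^ (Module.finrank ℝ (V (m + 2))) * Gg (t • y) = Gg y := by
    intro t ht y hy
    simp only [hGg, ndim]
    rw [Hg.hom t ht, ← aa_hom H ht hy]
    ring
  set ψ1 : ℝ → ℝ := fun t => F t * t ^ (m + 1) with hψ1
  set ψ2 : ℝ → ℝ := fun t => F' t * t ^ (m + 2) with hψ2
  have hψ1c : Continuous ψ1 := hFc.mul (continuous_pow _)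
  have hψ2c : Continuous ψ2 := hF'c.mul (continuous_pow _)
  have hψ1s : ∀ t, t ∉ Icc a b → ψ1 t = 0 := fun t ht => by simp [hψ1, hFs t ht]
  have hψ2s : ∀ t, t ∉ Icc a b → ψ2 t = 0 := fun t ht => by simp [hψ2, hF's t ht]
  have h1 := polar_homog (volume : Measure (V (m + 2))) H.cont H.hom H.pos hGtc hGth hψ1c ha hψ1s
  have h2 := polar_homog (volume : Measure (V (m + 2))) H.cont H.hom H.pos hGgc hGgh hψ2c ha hψ2s
  have h3 : ∫ t in Ioi (0 : ℝ), ψ1 t / t = ∫ t in Ioi (0 : ℝ), F t * t ^ m := by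
    refine setIntegral_congr_fun measurableSet_Ioi fun t ht => ?_
    have : t ≠ 0 := ne_of_gt ht
    simp only [hψ1]
    field_simp
    ring
  have h4 : ∫ t in Ioi (0 : ℝ), ψ2 t / t = ∫ t in Ioi (0 : ℝ), F' t * t ^ (m + 1) := by
    refine setIntegral_congr_fun measurableSet_Ioi fun t ht => ?_
    have : t ≠ 0 := ne_of_gt ht
    simp only [hψ2]
    field_simp
    ring
  have hint1 : IntegrableOn (fun y => ψ1 (h y) * Gt y) {0}ᶜ (volume : Measure (V (m + 2))) :=
    integrableOn_of_annulus _ ((hψ1c.comp_continuousOn H.cont).mul hGtc) hK hK0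
      fun y hy hyK => by
        have : h y ∉ Icc a b := fun hh' => hyK (hKm y hy hh')
        simp [hψ1s _ this]
  have hint2 : IntegrableOn (fun y => ψ2 (h y) * Gg y) {0}ᶜ (volume : Measure (V (m + 2))) :=
    integrableOn_of_annulus _ ((hψ2c.comp_continuousOn H.cont).mul hGgc) hK hK0
      fun y hy hyK => by
        have : h y ∉ Icc a b := fun hh' => hyK (hKm y hy hh')
        simp [hψ2s _ this]
  have h5 : ∫ y in ({0}ᶜ : Set (V (m + 2))), (SS (h y) h h y).det *
      (F (h y) * (hess g y * (SS (h y) h h y)⁻¹).trace + F' (h y) * (g y / h y))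
      = ∫ y in ({0}ᶜ : Set (V (m + 2))), (ψ1 (h y) * Gt y + ψ2 (h y) * Gg y) := by
    refine setIntegral_congr_fun (measurableSet_singleton _).compl fun y hy => ?_
    have hy0 : y ≠ 0 := hy
    have := (H.pos y hy0).ne'
    simp only [det_SS' H hy0, hψ1, hψ2, hGt, hGg, ta]
    field_simp
    ring
  rw [h5, integral_add hint1 hint2, h1, h2, h3, h4, hI2] at hid
  set I := ∫ t in Ioi (0 : ℝ), F t * t ^ m with hI
  set A := ∫ u : sphere (0 : V (m + 2)) 1, Gt u ∂((volume : Measure (V (m + 2))).toSphere) with hA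
  set B := ∫ u : sphere (0 : V (m + 2)) 1, Gg u ∂((volume : Measure (V (m + 2))).toSphere) with hB
  have h6 : I * (A - ((m + 1 : ℕ) : ℝ) * B) = 0 := by linarith
  have h7 := (mul_eq_zero.1 h6).resolve_left hI1.ne'
  linarith

theorem integrable_sphere {G : V n → ℝ} (hG : ContinuousOn G {0}ᶜ) :
    Integrable (fun u : sphere (0 : V n) 1 => G u) ((volume : Measure (V n)).toSphere) := by
  have : Continuous (fun u : sphere (0 : V n) 1 => G u) := by
    refine hG.comp_continuous continuous_subtype_val fun u => ?_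
    exact ne_zero_of_mem_unit_sphere u
  exact this.integrable_of_hasCompactSupport (HasCompactSupport.of_compactSpace _)

theorem hess_eq {m : ℕ} {h g : V (m + 2) → ℝ} (H : Adm h) (Hg : Adm g)
    (hdet : ∀ y, y ≠ 0 → ∀ c : ℝ, 0 < c → ∀ ν : Fin (m + 2) → ℝ,
      (c • hess h y + Matrix.vecMulVec ν ν).det = (c • hess g y + Matrix.vecMulVec ν ν).det)
    {y : V (m + 2)} (hy : y ≠ 0) : hess g y = hess h y := by
  have haa : ∀ y : V (m + 2), y ≠ 0 → aa h y = aa g y := by
    intro y hy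
    unfold aa
    have := hdet y hy 1 one_pos (y : Fin (m + 2) → ℝ)
    rw [one_smul, one_smul] at this
    rw [this]
  have hge : ∀ (h g : V (m + 2) → ℝ) (H : Adm h) (Hg : Adm g)
      (hdet : ∀ y, y ≠ 0 → ∀ c : ℝ, 0 < c → ∀ ν : Fin (m + 2) → ℝ,
      (c • hess h y + Matrix.vecMulVec ν ν).det = (c • hess g y + Matrix.vecMulVec ν ν).det),
      ∀ y : V (m + 2), y ≠ 0 → ((m + 1 : ℕ) : ℝ) ≤ ta h g y ∧
        (ta h g y = ((m + 1 : ℕ) : ℝ) → hess g y = hess h y) := by
    intro h g H Hg hdet y hy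
    have h1 := ta_ge H Hg hy (hdet y hy (h y) (H.pos y hy) (gr h y)).symm
    have h2 : ((m + 2 : ℕ) : ℝ) - 1 = ((m + 1 : ℕ) : ℝ) := by push_cast; ring
    rw [h2] at h1
    exact h1
  have hle : ∀ (h g : V (m + 2) → ℝ) (H : Adm h) (Hg : Adm g)
      (hdet : ∀ y, y ≠ 0 → ∀ c : ℝ, 0 < c → ∀ ν : Fin (m + 2) → ℝ,
      (c • hess h y + Matrix.vecMulVec ν ν).det = (c • hess g y + Matrix.vecMulVec ν ν).det),
      ∫ u : sphere (0 : V (m + 2)) 1, h u * aa h u ∂((volume : Measure (V (m + 2))).toSphere)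
      ≤ ∫ u : sphere (0 : V (m + 2)) 1, g u * aa h u
        ∂((volume : Measure (V (m + 2))).toSphere) := by
    intro h g H Hg hdet
    have h1 := sphere_identity H Hg
    have h2 : ((m + 1 : ℕ) : ℝ) * ∫ u : sphere (0 : V (m + 2)) 1, h u * aa h u
        ∂((volume : Measure (V (m + 2))).toSphere) ≤
        ∫ u : sphere (0 : V (m + 2)) 1, ta h g u * (h u * aa h u)
        ∂((volume : Measure (V (m + 2))).toSphere) := by
      rw [← integral_const_mul]
      refine integral_mono ((integrable_sphere (H.cont.mul (aa_cont H))).const_mul _)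
        (integrable_sphere ((ta_cont H Hg).mul (H.cont.mul (aa_cont H)))) ?_
      intro u
      have hu : (u : V (m + 2)) ≠ 0 := ne_zero_of_mem_unit_sphere u
      exact mul_le_mul_of_nonneg_right (hge h g H Hg hdet u hu).1
        (mul_pos (H.pos u hu) (aa_pos H hu)).le
    rw [h1] at h2
    exact le_of_mul_le_mul_left h2 (by positivity)
  have h1 := hle h g H Hg hdet
  have h2 := hle g h Hg H (fun y hy c hc ν => (hdet y hy c hc ν).symm)
  have h3 : ∫ u : sphere (0 : V (m + 2)) 1, g u * aa g u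
      ∂((volume : Measure (V (m + 2))).toSphere) = ∫ u : sphere (0 : V (m + 2)) 1, g u * aa h u
      ∂((volume : Measure (V (m + 2))).toSphere) := by
    refine integral_congr_ae (Eventually.of_forall fun u => ?_)
    simp only [haa u (ne_zero_of_mem_unit_sphere u)]
  have h4 : ∫ u : sphere (0 : V (m + 2)) 1, h u * aa g u
      ∂((volume : Measure (V (m + 2))).toSphere) = ∫ u : sphere (0 : V (m + 2)) 1, h u * aa h u
      ∂((volume : Measure (V (m + 2))).toSphere) := by
    refine integral_congr_ae (Eventually.of_forall fun u => ?_)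
    simp only [haa u (ne_zero_of_mem_unit_sphere u)]
  rw [h3, h4] at h2
  have heq := le_antisymm h1 h2
  -- the nonnegative function with zero integral
  let q : V (m + 2) → ℝ := fun y => (ta h g y - ((m + 1 : ℕ) : ℝ)) * (h y * aa h y)
  have hqc : ContinuousOn q {0}ᶜ :=
    ((ta_cont H Hg).sub continuousOn_const).mul (H.cont.mul (aa_cont H))
  have hq0 : ∀ u : sphere (0 : V (m + 2)) 1, 0 ≤ q u := by
    intro u
    have hu : (u : V (m + 2)) ≠ 0 := ne_zero_of_mem_unit_sphere u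
    exact mul_nonneg (sub_nonneg.2 (hge h g H Hg hdet u hu).1)
      (mul_pos (H.pos u hu) (aa_pos H hu)).le
  have hqi : ∫ u : sphere (0 : V (m + 2)) 1, q u ∂((volume : Measure (V (m + 2))).toSphere) = 0 := by
    have h5 : ∫ u : sphere (0 : V (m + 2)) 1, q u ∂((volume : Measure (V (m + 2))).toSphere)
        = ∫ u : sphere (0 : V (m + 2)) 1, (ta h g u * (h u * aa h u)
          - ((m + 1 : ℕ) : ℝ) * (h u * aa h u)) ∂((volume : Measure (V (m + 2))).toSphere) := by
      refine integral_congr_ae (Eventually.of_forall fun u => ?_)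
      simp only [q]
      ring
    have hi1 : Integrable (fun u : sphere (0 : V (m + 2)) 1 => ta h g u * (h u * aa h u))
        ((volume : Measure (V (m + 2))).toSphere) :=
      integrable_sphere ((ta_cont H Hg).mul (H.cont.mul (aa_cont H)))
    have hi2 : Integrable (fun u : sphere (0 : V (m + 2)) 1 => ((m + 1 : ℕ) : ℝ) * (h u * aa h u))
        ((volume : Measure (V (m + 2))).toSphere) :=
      (integrable_sphere (H.cont.mul (aa_cont H))).const_mul _
    rw [h5, integral_sub hi1 hi2, integral_const_mul, sphere_identity H Hg, heq, sub_self]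
  have hqs : Continuous (fun u : sphere (0 : V (m + 2)) 1 => q u) := by
    refine hqc.comp_continuous continuous_subtype_val fun u => ?_
    exact ne_zero_of_mem_unit_sphere u
  have hqz : (fun u : sphere (0 : V (m + 2)) 1 => q u) = 0 := by
    rw [integral_eq_zero_iff_of_nonneg hq0 (integrable_sphere hqc)] at hqi
    exact (Continuous.ae_eq_iff_eq _ hqs continuous_const).1 hqi
  -- conclusion on the sphere
  have hsph : ∀ u : sphere (0 : V (m + 2)) 1, hess g u = hess h u := by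
    intro u
    have hu : (u : V (m + 2)) ≠ 0 := ne_zero_of_mem_unit_sphere u
    have h6 : q u = 0 := congrFun hqz u
    have h7 : ta h g u - ((m + 1 : ℕ) : ℝ) = 0 :=
      (mul_eq_zero.1 h6).resolve_right (mul_pos (H.pos u hu) (aa_pos H hu)).ne'
    exact (hge h g H Hg hdet u hu).2 (sub_eq_zero.1 h7)
  have hn : 0 < ‖y‖ := norm_pos_iff.2 hy
  have hmem : ‖y‖⁻¹ • y ∈ sphere (0 : V (m + 2)) 1 := by
    simp [norm_smul, hn.ne']
  have h8 := hsph ⟨_, hmem⟩
  rw [← H.hess_hom (inv_pos.2 hn) hy, ← Hg.hess_hom (inv_pos.2 hn) hy]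
  rw [h8]

/-- **Minkowski's uniqueness theorem** for `C²` support functions. -/
theorem minkowski_unique {n : ℕ} (hn : 2 ≤ n) {h₁ h₂ : V n → ℝ}
    (hc₁ : ContDiffOn ℝ 2 h₁ {0}ᶜ) (hc₂ : ContDiffOn ℝ 2 h₂ {0}ᶜ)
    (hh₁ : ∀ t : ℝ, 0 < t → ∀ y, h₁ (t • y) = t * h₁ y)
    (hh₂ : ∀ t : ℝ, 0 < t → ∀ y, h₂ (t • y) = t * h₂ y)
    (hp₁ : ∀ y, y ≠ 0 → 0 < h₁ y) (hp₂ : ∀ y, y ≠ 0 → 0 < h₂ y)
    (hd₁ : ∀ y, y ≠ 0 → ∀ v, v ∉ Submodule.span ℝ {y} → 0 < fderiv ℝ (fderiv ℝ h₁) y v v)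
    (hd₂ : ∀ y, y ≠ 0 → ∀ v, v ∉ Submodule.span ℝ {y} → 0 < fderiv ℝ (fderiv ℝ h₂) y v v)
    (hdet : ∀ y, y ≠ 0 → ∀ c : ℝ, 0 < c → ∀ ν : Fin n → ℝ,
      (c • hess h₁ y + Matrix.vecMulVec ν ν).det = (c • hess h₂ y + Matrix.vecMulVec ν ν).det) :
    ∃ c : V n, ∀ y, h₁ y = h₂ y + inner ℝ c y := by
  obtain ⟨m, rfl⟩ : ∃ m, n = m + 2 := ⟨n - 2, by omega⟩
  have H1 : Adm h₁ := ⟨hc₁, hh₁, hp₁, hd₁⟩
  have H2 : Adm h₂ := ⟨hc₂, hh₂, hp₂, hd₂⟩
  have hhess : ∀ y : V (m + 2), y ≠ 0 → hess h₂ y = hess h₁ y := fun y hy =>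
    hess_eq H1 H2 hdet hy
  have hD2 : ∀ y : V (m + 2), y ≠ 0 →
      fderiv ℝ (fderiv ℝ h₁) y = fderiv ℝ (fderiv ℝ h₂) y := by
    intro y hy
    ext v w
    rw [← dot_hess, ← dot_hess, hhess y hy]
  -- the difference of the gradients is constant
  let f : V (m + 2) → (V (m + 2) →L[ℝ] ℝ) := fun y => fderiv ℝ h₁ y - fderiv ℝ h₂ y
  have hconn : IsPreconnected ({0}ᶜ : Set (V (m + 2))) := by
    apply (isConnected_compl_singleton_of_one_lt_rank _ (0 : V (m + 2))).isPreconnected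
    rw [← Module.finrank_eq_rank, ndim]
    exact_mod_cast (by omega : 1 < m + 2)
  have hfd : ∀ y ∈ ({0}ᶜ : Set (V (m + 2))), HasFDerivAt (𝕜 := ℝ) f 0 y := by
    intro y hy
    have h1 := (H1.hf2 hy).sub (H2.hf2 hy)
    rw [hD2 y hy, sub_self] at h1
    exact h1
  have hconst : ∀ y ∈ ({0}ᶜ : Set (V (m + 2))), ∀ z ∈ ({0}ᶜ : Set (V (m + 2))), f y = f z := by
    intro y hy z hz
    exact isOpen_compl_singleton.is_const_of_fderiv_eq_zero hconn
      (fun x hx => (hfd x hx).differentiableAt.differentiableWithinAt)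
      (fun x hx => (hfd x hx).fderiv) hy hz
  obtain ⟨y0, hy0⟩ : ∃ y0 : V (m + 2), y0 ≠ 0 := by
    have hnt : Nontrivial (V (m + 2)) := by
      apply Module.nontrivial_of_finrank_pos (R := ℝ)
      rw [ndim]; omega
    exact exists_ne 0
  refine ⟨Gm (m + 2) (f y0), fun y => ?_⟩
  rw [inner_Gm]
  by_cases hy : y = 0
  · subst hy
    have h1 := hh₁ 2 two_pos 0
    have h2 := hh₂ 2 two_pos 0
    rw [smul_zero] at h1 h2
    rw [map_zero]
    linarith
  · rw [hconst y0 hy0 y hy]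
    simp only [f, _root_.sub_apply, H1.euler hy, H2.euler hy]
    ring

end Pool.Agent.Helper14.Cov
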